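import Mathlib

/-!
# Class two extensions of an involution (for MP_eace53_al)

For an alternating biadditive map `β : Y × Y → Z` the set `{1,-1} × Y × Z` is a group with
`(s, y, f) (s', y', f') = (s s', y + s y', f + f' + β (y, s y'))`.
-/

set_option autoImplicit false

namespace Pool.Agent.Y614.Levi

/-- An alternating biadditive map. -/
structure Alt (Y Z : Type) [AddCommGroup Y] [AddCommGroup Z] where
  b : Y → Y → Z
  add_left : ∀ x y z, b (x + y) z = b x z + b y z
  add_right : ∀ x y z, b x (y + z) = b x y + b x z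
  self : ∀ x, b x x = 0

section
variable {Y Z : Type} [AddCommGroup Y] [AddCommGroup Z] (B : Alt Y Z)

theorem Alt.zero_left (x : Y) : B.b 0 x = 0 := by
  have := B.add_left 0 0 x
  simpa using this

theorem Alt.zero_right (x : Y) : B.b x 0 = 0 := by
  have := B.add_right x 0 0
  simpa using this

theorem Alt.neg_left (x y : Y) : B.b (-x) y = - B.b x y := by
  have h := B.add_left x (-x) y
  rw [add_neg_cancel, B.zero_left] at h
  exact (neg_eq_of_add_eq_zero_right h.symm).symm

theorem Alt.neg_right (x y : Y) : B.b x (-y) = - B.b x y := by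
  have h := B.add_right x y (-y)
  rw [add_neg_cancel, B.zero_right] at h
  exact (neg_eq_of_add_eq_zero_right h.symm).symm

theorem Alt.swap (x y : Y) : B.b y x = - B.b x y := by
  have h := B.self (x + y)
  rw [B.add_left, B.add_right, B.add_right, B.self, B.self] at h
  simp only [zero_add, add_zero] at h
  exact (neg_eq_of_add_eq_zero_right h).symm

theorem Alt.smul_smul (s : ℤˣ) (x y : Y) : B.b (s • x) (s • y) = B.b x y := by
  rcases Int.units_eq_one_or s with rfl | rfl
  · simp
  · simp [Units.neg_smul, B.neg_left, B.neg_right]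

/-- The group. -/
@[ext] structure EG (B : Alt Y Z) : Type where
  s : ℤˣ
  y : Y
  z : Z

variable {B}

instance : Mul (EG B) := ⟨fun g h => ⟨g.s * h.s, g.y + g.s • h.y, g.z + h.z + B.b g.y (g.s • h.y)⟩⟩
instance : One (EG B) := ⟨⟨1, 0, 0⟩⟩
instance : Inv (EG B) := ⟨fun g => ⟨g.s, -(g.s • g.y), -g.z⟩⟩

@[simp] theorem mul_s (g h : EG B) : (g * h).s = g.s * h.s := rfl
@[simp] theorem mul_y (g h : EG B) : (g * h).y = g.y + g.s • h.y := rfl
@[simp] theorem mul_z (g h : EG B) : (g * h).z = g.z + h.z + B.b g.y (g.s • h.y) := rfl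
@[simp] theorem one_s : (1 : EG B).s = 1 := rfl
@[simp] theorem one_y : (1 : EG B).y = 0 := rfl
@[simp] theorem one_z : (1 : EG B).z = 0 := rfl
@[simp] theorem inv_s (g : EG B) : (g⁻¹).s = g.s := rfl
@[simp] theorem inv_y (g : EG B) : (g⁻¹).y = -(g.s • g.y) := rfl
@[simp] theorem inv_z (g : EG B) : (g⁻¹).z = -g.z := rfl

instance : Group (EG B) := Group.ofLeftAxioms
  (by
    intro g h k
    ext
    · simp [mul_assoc]
    · simp only [mul_y, mul_s, smul_add, mul_smul]
      abel
    · simp only [mul_z, mul_y, mul_s, smul_add, mul_smul, B.add_left, B.add_right]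
      rw [B.smul_smul]
      abel)
  (by
    intro g
    ext <;> simp [B.zero_left])
  (by
    intro g
    ext
    · simp
    · simp
    · simp only [mul_z, inv_z, inv_y, inv_s, one_z, B.neg_left, B.self]
      simp)

theorem inv_s' (g : EG B) : (g⁻¹).s = g.s := rfl
theorem inv_y' (g : EG B) : (g⁻¹).y = -(g.s • g.y) := rfl
theorem inv_z' (g : EG B) : (g⁻¹).z = -g.z := rfl
theorem mul_s' (g h : EG B) : (g * h).s = g.s * h.s := rfl
theorem mul_y' (g h : EG B) : (g * h).y = g.y + g.s • h.y := rfl
theorem mul_z' (g h : EG B) : (g * h).z = g.z + h.z + B.b g.y (g.s • h.y) := rfl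
theorem one_s' : (1 : EG B).s = 1 := rfl
theorem one_y' : (1 : EG B).y = 0 := rfl
theorem one_z' : (1 : EG B).z = 0 := rfl

instance [Finite Y] [Finite Z] : Finite (EG B) := by
  have : Function.Injective (fun g : EG B => (g.s, g.y, g.z)) := by
    intro g h e
    simp only [Prod.mk.injEq] at e
    ext
    · rw [e.1]
    · rw [e.2.1]
    · rw [e.2.2]
  exact Finite.of_injective _ this

end

end Pool.Agent.Y614.Levi
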