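import Mathlib
import Pool.Agent.Y614.LeviA

/-!
# The two families of groups (for MP_eace53_al)
-/

set_option autoImplicit false

namespace Pool.Agent.Y614.Levi

open Finset

/-- the field with three elements -/
abbrev F : Type := ZMod 3

/-- the determinant form on `F^2` -/
def detB : Alt (F × F) F where
  b x y := x.1 * y.2 - x.2 * y.1
  add_left x y z := by simp only [Prod.fst_add, Prod.snd_add]; ring
  add_right x y z := by simp only [Prod.fst_add, Prod.snd_add]; ring
  self x := by ring

/-- the group `H` of order 54 -/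
abbrev H : Type := EG detB

/-- The symmetric coefficient matrix on the cycle of length `N + 4`: `1` on the diagonal and for
neighbours, with the exception of the pair `{0, N + 3}`, where it is `-1`; `0` elsewhere. -/
def Mx (N : ℕ) (i j : Fin (N + 4)) : F :=
  if i = j then 1 else if i.val + 1 = j.val ∨ j.val + 1 = i.val then 1
  else if (i.val = 0 ∧ j.val = N + 3) ∨ (j.val = 0 ∧ i.val = N + 3) then -1 else 0

theorem Mx_symm (N : ℕ) (i j : Fin (N + 4)) : Mx N i j = Mx N j i := by
  unfold Mx
  by_cases h : i = j
  · subst h; rfl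
  · have h' : ¬ j = i := fun e => h e.symm
    rw [if_neg h, if_neg h']
    congr 1
    · exact propext or_comm
    · congr 1
      exact propext or_comm

/-- the module of `N + 4` planes -/
abbrev YN (N : ℕ) : Type := Fin (N + 4) → F × F

/-- coordinates -/
def co {N : ℕ} (y : YN N) (p : Fin (N + 4) × Bool) : F := if p.2 then (y p.1).2 else (y p.1).1

theorem co_add {N : ℕ} (y z : YN N) (p : Fin (N + 4) × Bool) : co (y + z) p = co y p + co z p := by
  unfold co; split_ifs <;> rfl

abbrev Idx (N : ℕ) : Type := Fin (N + 4) × Bool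

/-- the centre -/
abbrev ZN (N : ℕ) : Type := F × (Idx N → Idx N → F)

/-- the form with the parameter `c` -/
def u0 {N : ℕ} (y y' : YN N) : F :=
  ∑ i, ∑ j, Mx N i j * ((y i).1 * (y' j).2 - (y i).2 * (y' j).1)

theorem u0_add_left {N : ℕ} (x y z : YN N) : u0 (x + y) z = u0 x z + u0 y z := by
  unfold u0
  rw [← sum_add_distrib]
  refine sum_congr rfl fun i _ => ?_
  rw [← sum_add_distrib]
  refine sum_congr rfl fun j _ => ?_
  simp only [Pi.add_apply, Prod.fst_add, Prod.snd_add]
  ring

theorem u0_add_right {N : ℕ} (x y z : YN N) : u0 x (y + z) = u0 x y + u0 x z := by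
  unfold u0
  rw [← sum_add_distrib]
  refine sum_congr rfl fun i _ => ?_
  rw [← sum_add_distrib]
  refine sum_congr rfl fun j _ => ?_
  simp only [Pi.add_apply, Prod.fst_add, Prod.snd_add]
  ring

theorem u0_self {N : ℕ} (x : YN N) : u0 x x = 0 := by
  have h : ∀ i j, Mx N i j * ((x i).1 * (x j).2 - (x i).2 * (x j).1) =
      Mx N i j * ((x i).1 * (x j).2) - Mx N i j * ((x i).2 * (x j).1) := fun i j => mul_sub _ _ _
  unfold u0
  simp only [h, sum_sub_distrib]
  rw [sub_eq_zero, sum_comm]
  refine sum_congr rfl fun i _ => sum_congr rfl fun j _ => ?_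
  rw [Mx_symm N j i]
  ring

/-- the alternating map that defines the `N`-th group -/
def bN (N : ℕ) : Alt (YN N) (ZN N) where
  b y y' := (u0 y y', fun p q => if Mx N p.1 q.1 = 0 then co y p * co y' q - co y' p * co y q else 0)
  add_left x y z := by
    refine Prod.ext (u0_add_left x y z) ?_
    funext p q
    simp only [Prod.snd_add, Pi.add_apply, co_add]
    split_ifs
    · ring
    · simp
  add_right x y z := by
    refine Prod.ext (u0_add_right x y z) ?_
    funext p q
    simp only [Prod.snd_add, Pi.add_apply, co_add]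
    split_ifs
    · ring
    · simp
  self x := by
    refine Prod.ext (u0_self x) ?_
    funext p q
    simp only [Prod.snd_zero, Pi.zero_apply]
    split_ifs
    · ring
    · rfl

/-- the groups `K N` -/
abbrev K (N : ℕ) : Type := EG (bN N)

/-! ### Homomorphisms on the subgroup over a subspace -/

section sub
variable {N : ℕ}

/-- the subgroup of all elements with second component in `W` -/
def SW (W : Submodule F (YN N)) : Subgroup (K N) where
  carrier := {g | g.y ∈ W}
  mul_mem' {g h} hg hh := by
    show (g * h).y ∈ W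
    rw [mul_y']
    refine W.add_mem hg ?_
    rcases Int.units_eq_one_or g.s with e | e
    · rw [e, one_smul]; exact hh
    · rw [e, Units.neg_smul, one_smul]; exact W.neg_mem hh
  one_mem' := W.zero_mem
  inv_mem' {g} hg := by
    show (g⁻¹).y ∈ W
    rw [inv_y']
    rcases Int.units_eq_one_or g.s with e | e
    · rw [e, one_smul]; exact W.neg_mem hg
    · rw [e, Units.neg_smul, one_smul, neg_neg]; exact hg

/-- The homomorphism given by two functionals on `Y` and one on the centre. -/
def homW (W : Submodule F (YN N)) (Φ : YN N →+ F × F) (ρ : ZN N →+ F)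
    (h : ∀ w ∈ W, ∀ w' ∈ W, detB.b (Φ w) (Φ w') = ρ ((bN N).b w w')) : SW W →* H where
  toFun g := ⟨g.1.s, Φ g.1.y, ρ g.1.z⟩
  map_one' := by
    ext
    · rfl
    · show (Φ 0).1 = 0
      simp
    · show (Φ 0).2 = 0
      simp
    · show ρ 0 = 0
      simp
  map_mul' g k := by
    have hk : k.1.y ∈ W := k.2
    have hsk : g.1.s • k.1.y ∈ W := by
      rcases Int.units_eq_one_or g.1.s with e | e
      · rw [e, one_smul]; exact hk
      · rw [e, Units.neg_smul, one_smul]; exact W.neg_mem hk
    have hs : Φ (g.1.s • k.1.y) = g.1.s • Φ k.1.y := by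
      rcases Int.units_eq_one_or g.1.s with e | e
      · rw [e]; simp
      · rw [e]; simp [Units.neg_smul]
    have e1 : ∀ a b : H, a.s = b.s → a.y = b.y → a.z = b.z → a = b := fun a b h1 h2 h3 => by
      cases a; cases b; simp_all
    refine e1 _ _ rfl ?_ ?_
    · show Φ (g.1.y + g.1.s • k.1.y) = Φ g.1.y + g.1.s • Φ k.1.y
      rw [map_add, hs]
    · show ρ (g.1.z + k.1.z + (bN N).b g.1.y (g.1.s • k.1.y)) =
        ρ g.1.z + ρ k.1.z + detB.b (Φ g.1.y) (g.1.s • Φ k.1.y)
      rw [map_add, map_add, ← hs, h _ g.2 _ hsk]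

end sub

end Pool.Agent.Y614.Levi
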