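import Mathlib
import Pool.Agent.Y614.LeviB

/-!
# Local separation (for MP_eace53_al): homomorphisms on the subgroup over a small subspace
-/

set_option autoImplicit false

namespace Pool.Agent.Y614.Levi

open Finset Module

section
variable {N : ℕ}

/-- coordinates as linear maps -/
def coL (p : Idx N) : YN N →ₗ[F] F where
  toFun y := co y p
  map_add' y z := co_add y z p
  map_smul' a y := by
    unfold co
    split_ifs <;> rfl

theorem coL_apply (p : Idx N) (y : YN N) : coL p y = co y p := rfl

/-- the part of `W` with vanishing components of index smaller than `k` -/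
def Wk (W : Submodule F (YN N)) (k : ℕ) : Submodule F (YN N) where
  carrier := {w | w ∈ W ∧ ∀ i : Fin (N + 4), i.val < k → w i = 0}
  add_mem' {a b} ha hb := ⟨W.add_mem ha.1 hb.1, fun i hi => by
    rw [Pi.add_apply, ha.2 i hi, hb.2 i hi, add_zero]⟩
  zero_mem' := ⟨W.zero_mem, fun i _ => rfl⟩
  smul_mem' c a ha := ⟨W.smul_mem c ha.1, fun i hi => by
    rw [Pi.smul_apply, ha.2 i hi, smul_zero]⟩

theorem exists_cut (W : Submodule F (YN N)) (hW : finrank F W ≤ N) :
    ∃ k : ℕ, 1 ≤ k ∧ k ≤ N + 1 ∧ ∀ w ∈ W, (∀ i : Fin (N + 4), i.val < k → w i = 0) →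
      ∀ i : Fin (N + 4), i.val = k → w i = 0 := by
  by_contra hcon
  push Not at hcon
  have key : ∀ j : ℕ, j ≤ N + 1 → finrank F (Wk W (1 + j)) + j ≤ finrank F (Wk W 1) := by
    intro j
    induction j with
    | zero => intro _; simp
    | succ j ih =>
      intro hj
      have h1 := ih (by omega)
      obtain ⟨w, hw, hw0, i, hik, hwi⟩ := hcon (1 + j) (by omega) (by omega)
      have hlt : Wk W (1 + (j + 1)) < Wk W (1 + j) := by
        refine lt_of_le_of_ne ?_ ?_
        · intro x hx
          exact ⟨hx.1, fun i hi => hx.2 i (by omega)⟩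
        · intro e
          have hx : w ∈ Wk W (1 + j) := ⟨hw, hw0⟩
          rw [← e] at hx
          exact hwi (hx.2 i (by omega))
      have h2 := Submodule.finrank_lt_finrank_of_lt hlt
      omega
  have h1 := key (N + 1) le_rfl
  have h2 : finrank F (Wk W 1) ≤ finrank F W :=
    Submodule.finrank_mono (fun x hx => hx.1)
  omega

theorem exists_coeff (W : Submodule F (YN N)) (k : Fin (N + 4))
    (hk : ∀ w ∈ W, (∀ i : Fin (N + 4), i.val < k.val → w i = 0) → w k = 0) (a : Bool) :
    ∃ α : Idx N → F, (∀ p, ¬ p.1.val < k.val → α p = 0) ∧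
      ∀ w ∈ W, co w (k, a) = ∑ p, α p * co w p := by
  classical
  let L : {p : Idx N // p.1.val < k.val} → W →ₗ[F] F := fun p => (coL p.1).comp W.subtype
  let Kf : W →ₗ[F] F := (coL (k, a)).comp W.subtype
  have h1 : ⨅ i, LinearMap.ker (L i) ≤ LinearMap.ker Kf := by
    intro w hw
    have hw' : ∀ p : {p : Idx N // p.1.val < k.val}, co w.1 p.1 = 0 := by
      intro p
      have := (Submodule.mem_iInf _).1 hw p
      exact LinearMap.mem_ker.1 this
    refine LinearMap.mem_ker.2 ?_
    show co w.1 (k, a) = 0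
    have h0 : w.1 k = 0 := by
      refine hk w.1 w.2 fun i hi => ?_
      have e1 := hw' ⟨(i, false), hi⟩
      have e2 := hw' ⟨(i, true), hi⟩
      simp only [co] at e1 e2
      exact Prod.ext (by simpa using e1) (by simpa using e2)
    unfold co
    split_ifs <;> simp [h0]
  have h2 := mem_span_of_iInf_ker_le_ker h1
  obtain ⟨c, hc⟩ := (Submodule.mem_span_range_iff_exists_fun F).1 h2
  refine ⟨fun p => if h : p.1.val < k.val then c ⟨p, h⟩ else 0, ?_, ?_⟩
  · intro p hp
    exact dif_neg hp
  · intro w hw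
    have e := LinearMap.congr_fun hc ⟨w, hw⟩
    have e' : ∑ p : {p : Idx N // p.1.val < k.val}, c p * co w p.1 = co w (k, a) := by
      simpa [L, Kf, coL_apply, LinearMap.sum_apply] using e
    rw [← e']
    have hp2 : ∀ p : {p : Idx N // p.1.val < k.val}, (if h : p.1.1.val < k.val then c ⟨p.1, h⟩ else 0) *
        co w p.1 = c p * co w p.1 := by
      intro p
      rw [dif_pos p.2]
    rw [← Finset.sum_filter_add_sum_filter_not univ (fun p : Idx N => p.1.val < k.val)
      (fun p => (if h : p.1.val < k.val then c ⟨p, h⟩ else 0) * co w p)]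
    rw [Finset.sum_eq_zero (s := univ.filter fun p : Idx N => ¬ p.1.val < k.val), add_zero]
    · rw [Finset.sum_subtype (univ.filter fun p : Idx N => p.1.val < k.val)
        (p := fun p : Idx N => p.1.val < k.val) (by intro x; simp)]
      exact Finset.sum_congr rfl fun p _ => (hp2 p).symm
    · intro p hp
      rw [dif_neg (Finset.mem_filter.1 hp).2, zero_mul]

/-- `φ` is on `W` a combination of the free coordinates of the form -/
def FreeOn (W : Submodule F (YN N)) (φ : YN N → YN N → F) : Prop :=
  ∃ r : Idx N → Idx N → F, ∀ w ∈ W, ∀ w' ∈ W,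
    φ w w' = ∑ p, ∑ q, r p q * ((bN N).b w w').2 p q

theorem FreeOn.zero (W : Submodule F (YN N)) : FreeOn W (fun _ _ => 0) :=
  ⟨fun _ _ => 0, fun w _ w' _ => by simp⟩

theorem FreeOn.add {W : Submodule F (YN N)} {φ ψ : YN N → YN N → F} (h1 : FreeOn W φ)
    (h2 : FreeOn W ψ) : FreeOn W (fun x y => φ x y + ψ x y) := by
  obtain ⟨r, hr⟩ := h1
  obtain ⟨t, ht⟩ := h2
  refine ⟨fun p q => r p q + t p q, fun w hw w' hw' => ?_⟩
  beta_reduce
  rw [hr w hw w' hw', ht w hw w' hw', ← sum_add_distrib]
  refine sum_congr rfl fun p _ => ?_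
  rw [← sum_add_distrib]
  exact sum_congr rfl fun q _ => (add_mul _ _ _).symm

theorem FreeOn.mul {W : Submodule F (YN N)} {φ : YN N → YN N → F} (h1 : FreeOn W φ) (c : F) :
    FreeOn W (fun x y => c * φ x y) := by
  obtain ⟨r, hr⟩ := h1
  refine ⟨fun p q => c * r p q, fun w hw w' hw' => ?_⟩
  beta_reduce
  rw [hr w hw w' hw', mul_sum]
  refine sum_congr rfl fun p _ => ?_
  rw [mul_sum]
  exact sum_congr rfl fun q _ => (mul_assoc _ _ _).symm

theorem FreeOn.sum {W : Submodule F (YN N)} {ι : Type} (s : Finset ι) {φ : ι → YN N → YN N → F}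
    (h : ∀ i ∈ s, FreeOn W (φ i)) : FreeOn W (fun x y => ∑ i ∈ s, φ i x y) := by
  classical
  induction s using Finset.induction_on with
  | empty => simpa using FreeOn.zero W
  | insert a s ha ih =>
    have h1 := h a (mem_insert_self _ _)
    have h2 := ih fun i hi => h i (mem_insert_of_mem hi)
    simpa [sum_insert ha] using h1.add h2

theorem FreeOn.congr {W : Submodule F (YN N)} {φ ψ : YN N → YN N → F} (h1 : FreeOn W φ)
    (h : ∀ w ∈ W, ∀ w' ∈ W, ψ w w' = φ w w') : FreeOn W ψ := by
  obtain ⟨r, hr⟩ := h1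
  exact ⟨r, fun w hw w' hw' => (h w hw w' hw').trans (hr w hw w' hw')⟩

theorem FreeOn.coord (W : Submodule F (YN N)) (p q : Idx N) (h : Mx N p.1 q.1 = 0) :
    FreeOn W (fun w w' => co w p * co w' q - co w' p * co w q) := by
  classical
  refine ⟨fun p' q' => if p' = p ∧ q' = q then 1 else 0, fun w _ w' _ => ?_⟩
  rw [Finset.sum_eq_single p, Finset.sum_eq_single q]
  · simp [bN, h]
  · intro b _ hb
    simp [hb]
  · simp
  · intro b _ hb
    refine Finset.sum_eq_zero fun q' _ => ?_
    simp [hb]
  · simp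

/-- If the coordinate `p` depends on `W` on coordinates that are far from `q`, the elementary form is
free on `W`. -/
theorem FreeOn.expand (W : Submodule F (YN N)) (p q : Idx N) (α : Idx N → F)
    (h0 : ∀ t, α t ≠ 0 → Mx N t.1 q.1 = 0) (h : ∀ w ∈ W, co w p = ∑ t, α t * co w t) :
    FreeOn W (fun w w' => co w p * co w' q - co w' p * co w q) := by
  have h1 : FreeOn W (fun w w' => ∑ t, α t * (co w t * co w' q - co w' t * co w q)) := by
    refine FreeOn.sum univ fun t _ => ?_
    by_cases ht : α t = 0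
    · simpa [ht] using FreeOn.zero W
    · exact (FreeOn.coord W t q (h0 t ht)).mul (α t)
  refine h1.congr fun w hw w' hw' => ?_
  rw [h w hw, h w' hw', sum_mul, sum_mul, ← sum_sub_distrib]
  exact sum_congr rfl fun t _ => by ring

/-- signs -/
def eps (N k : ℕ) (i : Fin (N + 4)) : F := if i.val ≤ k then 1 else -1

theorem eps_mul (k : ℕ) (hk : 1 ≤ k) (hk2 : k ≤ N + 1) (i j : Fin (N + 4))
    (hM : Mx N i j ≠ 0) (hD : eps N k i * eps N k j - Mx N i j ≠ 0) :
    (i.val = k ∧ j.val = k + 1) ∨ (i.val = k + 1 ∧ j.val = k) := by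
  have h3 : (-1 : F) * -1 = 1 := by decide
  by_cases h1 : i = j
  · subst h1
    exfalso; apply hD
    unfold Mx eps
    split_ifs <;> simp_all
  · by_cases h2 : i.val + 1 = j.val ∨ j.val + 1 = i.val
    · have e : Mx N i j = 1 := by unfold Mx; rw [if_neg h1, if_pos h2]
      rw [e] at hD
      unfold eps at hD
      rcases h2 with h2 | h2
      · left
        by_contra hc
        apply hD
        by_cases ha : i.val ≤ k
        · have hb : j.val ≤ k := by omega
          rw [if_pos ha, if_pos hb]; ring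
        · have hb : ¬ j.val ≤ k := by omega
          rw [if_neg ha, if_neg hb]; ring
      · right
        by_contra hc
        apply hD
        by_cases ha : j.val ≤ k
        · have hb : i.val ≤ k := by omega
          rw [if_pos ha, if_pos hb]; ring
        · have hb : ¬ i.val ≤ k := by omega
          rw [if_neg ha, if_neg hb]; ring
    · by_cases h4 : (i.val = 0 ∧ j.val = N + 3) ∨ (j.val = 0 ∧ i.val = N + 3)
      · exfalso; apply hD
        have e : Mx N i j = -1 := by unfold Mx; rw [if_neg h1, if_neg h2, if_pos h4]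
        rw [e]
        unfold eps
        rcases h4 with ⟨h4, h5⟩ | ⟨h4, h5⟩
        · rw [if_pos (by omega), if_neg (by omega)]; ring
        · rw [if_neg (by omega), if_pos (by omega)]; ring
      · exfalso; apply hM
        unfold Mx; rw [if_neg h1, if_neg h2, if_neg h4]

theorem Mx_far (k : ℕ) (hk : 1 ≤ k) (hk2 : k ≤ N + 1) (i j : Fin (N + 4)) (hi : i.val < k)
    (hj : j.val = k + 1) : Mx N i j = 0 := by
  unfold Mx
  rw [if_neg (by intro e; rw [e] at hi; omega), if_neg (by omega), if_neg (by omega)]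

/-- the map to the plane -/
def Phi (N k : ℕ) : YN N →+ F × F where
  toFun y := (∑ i, eps N k i * (y i).1, ∑ i, eps N k i * (y i).2)
  map_zero' := by simp
  map_add' x y := by
    refine Prod.ext ?_ ?_
    · simp only [Prod.fst_add, Pi.add_apply, mul_add, sum_add_distrib]
    · simp only [Prod.snd_add, Pi.add_apply, mul_add, sum_add_distrib]

theorem det_Phi (k : ℕ) (w w' : YN N) : detB.b (Phi N k w) (Phi N k w') - u0 w w' =
    ∑ i, ∑ j, (eps N k i * eps N k j - Mx N i j) *
      ((w i).1 * (w' j).2 - (w' i).1 * (w j).2) := by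
  have e1 : detB.b (Phi N k w) (Phi N k w') = ∑ i, ∑ j, (eps N k i * eps N k j) *
      ((w i).1 * (w' j).2 - (w' i).1 * (w j).2) := by
    show (∑ i, eps N k i * (w i).1) * (∑ i, eps N k i * (w' i).2) -
      (∑ i, eps N k i * (w i).2) * (∑ i, eps N k i * (w' i).1) = _
    rw [mul_comm (∑ i, eps N k i * (w i).2), sum_mul_sum, sum_mul_sum, ← sum_sub_distrib]
    refine sum_congr rfl fun i _ => ?_
    rw [← sum_sub_distrib]
    exact sum_congr rfl fun j _ => by ring
  have e2 : u0 w w' = ∑ i, ∑ j, Mx N i j * ((w i).1 * (w' j).2 - (w' i).1 * (w j).2) := by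
    unfold u0
    simp only [mul_sub, sum_sub_distrib]
    congr 1
    rw [sum_comm]
    refine sum_congr rfl fun i _ => sum_congr rfl fun j _ => ?_
    rw [Mx_symm N j i]
    ring
  rw [e1, e2, ← sum_sub_distrib]
  refine sum_congr rfl fun i _ => ?_
  rw [← sum_sub_distrib]
  exact sum_congr rfl fun j _ => by ring

theorem free_det (W : Submodule F (YN N)) (k : ℕ) (hk : 1 ≤ k) (hk2 : k ≤ N + 1)
    (hW : ∀ w ∈ W, (∀ i : Fin (N + 4), i.val < k → w i = 0) →
      ∀ i : Fin (N + 4), i.val = k → w i = 0) :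
    FreeOn W (fun w w' => detB.b (Phi N k w) (Phi N k w') - u0 w w') := by
  have hco0 : ∀ (y : YN N) (i : Fin (N + 4)), co y (i, false) = (y i).1 := fun y i => by simp [co]
  have hco1 : ∀ (y : YN N) (i : Fin (N + 4)), co y (i, true) = (y i).2 := fun y i => by simp [co]
  have h1 : FreeOn W (fun w w' => ∑ i, ∑ j, (eps N k i * eps N k j - Mx N i j) *
      ((w i).1 * (w' j).2 - (w' i).1 * (w j).2)) := by
    refine FreeOn.sum univ fun i _ => FreeOn.sum univ fun j _ => ?_
    by_cases hD : eps N k i * eps N k j - Mx N i j = 0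
    · simpa [hD] using FreeOn.zero W
    · by_cases hM : Mx N i j = 0
      · have := (FreeOn.coord W (i, false) (j, true) hM).mul (eps N k i * eps N k j - Mx N i j)
        simpa only [hco0, hco1] using this
      · rcases eps_mul k hk hk2 i j hM hD with ⟨hi, hj⟩ | ⟨hi, hj⟩
        · obtain ⟨α, hα0, hα⟩ := exists_coeff W i (fun w hw h => hW w hw (by rwa [hi] at h) i hi) false
          have h2 := FreeOn.expand W (i, false) (j, true) α (fun t ht => by
            by_contra hc
            exact ht (hα0 t fun h => hc (Mx_far k hk hk2 t.1 j (by omega) hj))) hα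
          have := h2.mul (eps N k i * eps N k j - Mx N i j)
          simpa only [hco0, hco1] using this
        · obtain ⟨α, hα0, hα⟩ := exists_coeff W j (fun w hw h => hW w hw (by rwa [hj] at h) j hj) true
          have h2 := FreeOn.expand W (j, true) (i, false) α (fun t ht => by
            by_contra hc
            exact ht (hα0 t fun h => hc (Mx_far k hk hk2 t.1 i (by omega) hi))) hα
          have := h2.mul (-(eps N k i * eps N k j - Mx N i j))
          refine this.congr fun w _ w' _ => ?_
          simp only [hco0, hco1]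
          ring
  exact h1.congr fun w _ w' _ => det_Phi k w w'

/-- **Main local statement**: on a small subspace the form with parameter `c` is a determinant plus
free forms. -/
theorem exists_rho (W : Submodule F (YN N)) (hW : finrank F W ≤ N) :
    ∃ (Φ : YN N →+ F × F) (ρ : ZN N →+ F), (∀ c : F, ρ (c, 0) = c) ∧
      ∀ w ∈ W, ∀ w' ∈ W, detB.b (Φ w) (Φ w') = ρ ((bN N).b w w') := by
  obtain ⟨k, hk, hk2, hcut⟩ := exists_cut W hW
  obtain ⟨r, hr⟩ := free_det W k hk hk2 hcut
  refine ⟨Phi N k, ⟨⟨fun z => z.1 + ∑ p, ∑ q, r p q * z.2 p q, by simp⟩, ?_⟩, ?_, ?_⟩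
  · intro x y
    show (x + y).1 + ∑ p, ∑ q, r p q * (x + y).2 p q =
      (x.1 + ∑ p, ∑ q, r p q * x.2 p q) + (y.1 + ∑ p, ∑ q, r p q * y.2 p q)
    simp only [Prod.fst_add, Prod.snd_add, Pi.add_apply, mul_add, sum_add_distrib]
    ring
  · intro c
    show c + ∑ p, ∑ q, r p q * (0 : Idx N → Idx N → F) p q = c
    simp
  · intro w hw w' hw'
    show _ = ((bN N).b w w').1 + ∑ p, ∑ q, r p q * ((bN N).b w w').2 p q
    have := hr w hw w' hw'
    have e : ((bN N).b w w').1 = u0 w w' := rfl
    rw [e, ← this]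
    ring

end

end Pool.Agent.Y614.Levi
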