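import Mathlib
import Pool.Agent.Y614.LeviC

/-!
# Quasi-identities: the groups `K N` are locally in the quasivariety of `H`, and the normal closure
of the involution is not (for MP_eace53_al)
-/

set_option autoImplicit false

namespace Pool.Agent.Y614.Levi

open Finset Module

/-- The quasi-identity `∀ x, (⋀ p = 1 for p in prem) → concl = 1` holds in `G`. -/
def HoldsQ (G : Type) [Group G] {n : ℕ} (prem : List (FreeGroup (Fin n)))
    (concl : FreeGroup (Fin n)) : Prop :=
  ∀ f : Fin n → G, (∀ p ∈ prem, FreeGroup.lift f p = 1) → FreeGroup.lift f concl = 1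

/-- `G` lies in the quasivariety generated by `A`. -/
def InQ (A G : Type) [Group A] [Group G] : Prop :=
  ∀ (n : ℕ) (prem : List (FreeGroup (Fin n))) (concl : FreeGroup (Fin n)),
    HoldsQ A prem concl → HoldsQ G prem concl

theorem lift_hom {n : ℕ} {G G' : Type} [Group G] [Group G'] (ψ : G →* G') (f : Fin n → G)
    (w : FreeGroup (Fin n)) : FreeGroup.lift (fun i => ψ (f i)) w = ψ (FreeGroup.lift f w) := by
  have : FreeGroup.lift (fun i => ψ (f i)) = ψ.comp (FreeGroup.lift f) := by
    ext i; simp
  rw [this]; rfl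

theorem InQ.subgroup {A G : Type} [Group A] [Group G] (h : InQ A G) (S : Subgroup G) : InQ A S := by
  intro n prem concl hA f hf
  have h1 := h n prem concl hA (fun i => S.subtype (f i)) (fun p hp => by
    rw [lift_hom, hf p hp, map_one])
  rw [lift_hom] at h1
  exact Subtype.ext h1

/-- In a finite group of the quasivariety generated by `A` every nontrivial element survives in some
homomorphism to `A`. -/
theorem exists_hom {A G : Type} [Group A] [Group G] [Finite G] (h : InQ A G) (z : G) (hz : z ≠ 1) :
    ∃ ψ : G →* A, ψ z ≠ 1 := by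
  classical
  by_contra hcon
  push Not at hcon
  let n := Nat.card G
  let e : G ≃ Fin n := Finite.equivFin G
  let w : G → FreeGroup (Fin n) := fun g => FreeGroup.of (e g)
  have hA : HoldsQ A ((Finset.univ : Finset (Fin n × Fin n)).toList.map
      (fun p => w (e.symm p.1) * w (e.symm p.2) * (w (e.symm p.1 * e.symm p.2))⁻¹)) (w z) := by
    intro f hf
    have h1 : ∀ a b : G, f (e a) * f (e b) = f (e (a * b)) := by
      intro a b
      have := hf (w (e.symm (e a)) * w (e.symm (e b)) * (w (e.symm (e a) * e.symm (e b)))⁻¹)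
        (List.mem_map.2 ⟨(e a, e b), by simp, rfl⟩)
      simp only [w, Equiv.symm_apply_apply, map_mul, map_inv, FreeGroup.lift_apply_of] at this
      exact mul_inv_eq_one.1 this
    let ψ : G →* A := MonoidHom.mk' (fun g => f (e g)) (fun a b => (h1 a b).symm)
    have := hcon ψ
    simpa [w, ψ] using this
  have h2 := h n _ _ hA (fun i => e.symm i) (fun p hp => by
    obtain ⟨q, -, rfl⟩ := List.mem_map.1 hp
    simp [w])
  apply hz
  simpa [w] using h2

/-! ### Local membership -/

section
variable {N : ℕ}

theorem separate (W : Submodule F (YN N)) (hW : finrank F W ≤ N) (x : SW W) (hx : x ≠ 1) :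
    ∃ ψ : SW W →* H, ψ x ≠ 1 := by
  by_cases hs : x.1.s = 1
  · by_cases hy : x.1.y = 0
    · by_cases hg : x.1.z.2 = 0
      · have hc : x.1.z.1 ≠ 0 := by
          intro hc
          apply hx
          apply Subtype.ext
          have e1 : x.1.z = 0 := Prod.ext hc hg
          have : ∀ a : K N, a.s = 1 → a.y = 0 → a.z = 0 → a = 1 := by
            rintro ⟨s, y, z⟩ rfl rfl rfl
            rfl
          exact this x.1 hs hy e1
        obtain ⟨Φ, ρ, h1, h2⟩ := exists_rho W hW
        refine ⟨homW W Φ ρ h2, fun h => hc ?_⟩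
        have h3 : ρ x.1.z = 0 := congrArg EG.z h
        have h4 : x.1.z = (x.1.z.1, 0) := Prod.ext rfl hg
        rw [h4, h1] at h3
        exact h3
      · obtain ⟨p, hp⟩ := Function.ne_iff.1 hg
        obtain ⟨q, hq⟩ := Function.ne_iff.1 hp
        let ρ : ZN N →+ F := ⟨⟨fun z => z.2 p q, rfl⟩, fun _ _ => rfl⟩
        by_cases hM : Mx N p.1 q.1 = 0
        · let Φ : YN N →+ F × F := ⟨⟨fun y => (co y p, co y q), by
            refine Prod.ext ?_ ?_ <;> simp [co]⟩, fun a b => by
            refine Prod.ext ?_ ?_
            · exact co_add a b p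
            · exact co_add a b q⟩
          refine ⟨homW W Φ ρ ?_, fun h => hq ?_⟩
          · intro w _ w' _
            show co w p * co w' q - co w q * co w' p = if Mx N p.1 q.1 = 0 then _ else _
            rw [if_pos hM]
            ring
          · exact congrArg EG.z h
        · refine ⟨homW W 0 ρ ?_, fun h => hq ?_⟩
          · intro w _ w' _
            show detB.b 0 0 = if Mx N p.1 q.1 = 0 then _ else _
            rw [if_neg hM, Alt.zero_left]
          · exact congrArg EG.z h
    · obtain ⟨i, hi⟩ := Function.ne_iff.1 hy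
      have : ∃ p : Idx N, co x.1.y p ≠ 0 := by
        by_contra hcon
        push Not at hcon
        apply hi
        have e1 := hcon (i, false)
        have e2 := hcon (i, true)
        simp only [co] at e1 e2
        exact Prod.ext (by simpa using e1) (by simpa using e2)
      obtain ⟨p, hp⟩ := this
      let Φ : YN N →+ F × F := ⟨⟨fun y => (co y p, 0), by
        refine Prod.ext ?_ ?_ <;> simp [co]⟩, fun a b => by
        refine Prod.ext ?_ ?_
        · exact co_add a b p
        · simp⟩
      refine ⟨homW W Φ 0 ?_, fun h => hp ?_⟩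
      · intro w _ w' _
        show co w p * 0 - 0 * co w' p = 0
        ring
      · have h3 : (co x.1.y p, (0 : F)) = (0 : F × F) := congrArg EG.y h
        exact congrArg Prod.fst h3
  · refine ⟨homW W 0 0 ?_, fun h => hs ?_⟩
    · intro w _ w' _
      show detB.b 0 0 = 0
      rw [Alt.zero_left]
    · exact congrArg EG.s h

/-- Quasi-identities of `H` in at most `N` variables hold in `K N`. -/
theorem local_Q {m : ℕ} (hm : m ≤ N) (prem : List (FreeGroup (Fin m)))
    (concl : FreeGroup (Fin m)) (hH : HoldsQ H prem concl) : HoldsQ (K N) prem concl := by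
  intro f hf
  by_contra hne
  let W : Submodule F (YN N) := Submodule.span F (Set.range fun i => (f i).y)
  have hW : finrank F W ≤ N := by
    have h1 : (Set.range fun i => (f i).y).finrank F ≤ Fintype.card (Fin m) :=
      finrank_range_le_card _
    rw [Fintype.card_fin] at h1
    exact le_trans h1 hm
  have hmem : ∀ i, f i ∈ SW W := fun i => Submodule.subset_span ⟨i, rfl⟩
  let f' : Fin m → SW W := fun i => ⟨f i, hmem i⟩
  have hl : ∀ w, ((FreeGroup.lift f' w : SW W) : K N) = FreeGroup.lift f w := by
    intro w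
    have := lift_hom (SW W).subtype f' w
    exact this.symm
  obtain ⟨ψ, hψ⟩ := separate W hW (FreeGroup.lift f' concl) (fun h => hne (by
    rw [← hl, h]; rfl))
  apply hψ
  rw [← lift_hom]
  refine hH _ fun p hp => ?_
  rw [lift_hom]
  have : FreeGroup.lift f' p = 1 := Subtype.ext (by rw [hl, hf p hp]; rfl)
  rw [this, map_one]

end

/-! ### The normal closure of the involution -/

section
variable {N : ℕ}

def tau (N : ℕ) : K N := ⟨-1, 0, 0⟩
def sy (y : YN N) : K N := ⟨1, y, 0⟩
def zf (f : ZN N) : K N := ⟨1, 0, f⟩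

theorem three_eq (y : YN N) : y + y = -y := by
  have h3 : ∀ a : F, a + a = -a := by decide
  funext i
  exact Prod.ext (h3 _) (h3 _)

theorem tau_mul_tau : tau N * tau N = 1 := by
  refine EG.ext ?_ ?_ ?_
  · simp [tau]
  · simp [tau]
  · simp [tau, Alt.zero_left]

theorem sy_mul (y y' : YN N) : sy y * sy y' = sy (y + y') * zf ((bN N).b y y') := by
  refine EG.ext ?_ ?_ ?_
  · simp [sy, zf]
  · simp [sy, zf]
  · simp [sy, zf, Alt.zero_right]

theorem sy_zero : sy (0 : YN N) = 1 := rfl

theorem sy_inv (y : YN N) : (sy y)⁻¹ = sy (-y) := by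
  refine EG.ext ?_ ?_ ?_ <;> simp [sy]

theorem tau_sy (y : YN N) : tau N * sy y = sy (-y) * tau N := by
  refine EG.ext ?_ ?_ ?_
  · simp [tau, sy]
  · simp [tau, sy]
  · simp [tau, sy, Alt.zero_left, Alt.zero_right]

theorem tau_zf (f : ZN N) : tau N * zf f = zf f * tau N := by
  refine EG.ext ?_ ?_ ?_
  · simp [tau, zf]
  · simp [tau, zf]
  · simp [tau, zf, Alt.zero_left, Alt.zero_right]

theorem sy_double (y : YN N) : sy (-y) * sy (-y) = sy y := by
  rw [sy_mul]
  have h1 : (-y) + (-y) = y := by
    have := three_eq (-y); rwa [neg_neg] at this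
  rw [h1, Alt.self]
  have : zf (0 : ZN N) = 1 := rfl
  rw [this, mul_one]

theorem sy_eq_comm (y : YN N) : sy y = sy (-y) * tau N * (sy (-y))⁻¹ * tau N := by
  rw [sy_inv, neg_neg, mul_assoc, mul_assoc, ← mul_assoc (tau N) (sy y), tau_sy, mul_assoc,
    tau_mul_tau, mul_one, sy_double]

/-- the normal closure of the involution -/
abbrev NN (N : ℕ) : Subgroup (K N) := Subgroup.normalClosure ({tau N} : Set (K N))

theorem tau_mem : tau N ∈ NN N := Subgroup.subset_normalClosure (Set.mem_singleton _)

theorem sy_mem (y : YN N) : sy y ∈ NN N := by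
  rw [sy_eq_comm y]
  exact (NN N).mul_mem (Subgroup.normalClosure_normal.conj_mem _ tau_mem _) tau_mem

theorem zf_mem (y y' : YN N) : zf ((bN N).b y y') ∈ NN N := by
  have h : zf ((bN N).b y y') = (sy (y + y'))⁻¹ * (sy y * sy y') := by
    rw [sy_mul, inv_mul_cancel_left]
  rw [h]
  exact (NN N).mul_mem ((NN N).inv_mem (sy_mem _)) ((NN N).mul_mem (sy_mem _) (sy_mem _))

end

end Pool.Agent.Y614.Levi
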