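import Mathlib
import Pool.Agent.Y614.LeviD

/-!
# The normal closure of the involution of `K N` is not in the quasivariety of `H` (for MP_eace53_al)
-/

set_option autoImplicit false

namespace Pool.Agent.Y614.Levi

open Finset Module

/-- the involution of `H` -/
def tauH : H := ⟨-1, 0, 0⟩

theorem F_double {a : F} (h : a = -a) : a = 0 := by
  revert a; decide

theorem FF_double {a : F × F} (h : a = -a) : a = 0 :=
  Prod.ext (F_double (congrArg Prod.fst h)) (F_double (congrArg Prod.snd h))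

/-- Every involution of `H` is conjugate to `tauH`. -/
theorem conj_tau (h : H) (h2 : h * h = 1) (h1 : h ≠ 1) : ∃ c : H, c⁻¹ * h * c = tauH := by
  obtain ⟨s, v, t⟩ := h
  rcases Int.units_eq_one_or s with rfl | rfl
  · exfalso
    apply h1
    have e2 : v + v = 0 := by simpa using congrArg EG.y h2
    have hv : v = 0 := FF_double (eq_neg_of_add_eq_zero_left e2)
    subst hv
    have e3 : t + t = 0 := by simpa [Alt.zero_left] using congrArg EG.z h2
    have ht : t = 0 := F_double (eq_neg_of_add_eq_zero_left e3)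
    subst ht
    rfl
  · have e3 : t + t = 0 := by simpa [Alt.neg_right, Alt.self] using congrArg EG.z h2
    have ht : t = 0 := F_double (eq_neg_of_add_eq_zero_left e3)
    subst ht
    refine ⟨⟨1, -v, 0⟩, ?_⟩
    have hv : v + v = -v := by
      have h3 : ∀ a : F, a + a = -a := by decide
      exact Prod.ext (h3 _) (h3 _)
    refine EG.ext ?_ ?_ ?_
    · simp [tauH]
    · simp [tauH, hv]
    · simp [tauH, Alt.neg_left, Alt.neg_right, Alt.self, Alt.add_left, Alt.add_right]

theorem det_cancel {p q x y : F × F} {c : F} (hc : c ≠ 0) (h : detB.b p q = c)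
    (h1 : detB.b p x = detB.b p y) (h2 : detB.b q x = detB.b q y) : x = y := by
  obtain ⟨p1, p2⟩ := p
  obtain ⟨q1, q2⟩ := q
  obtain ⟨x1, x2⟩ := x
  obtain ⟨y1, y2⟩ := y
  have h' : p1 * q2 - p2 * q1 = c := h
  have h1' : p1 * x2 - p2 * x1 = p1 * y2 - p2 * y1 := h1
  have h2' : q1 * x2 - q2 * x1 = q1 * y2 - q2 * y1 := h2
  have e1 : c * (x1 - y1) = 0 := by
    rw [← h']
    linear_combination q1 * h1' - p1 * h2'
  have e2 : c * (x2 - y2) = 0 := by
    rw [← h']
    linear_combination q2 * h1' - p2 * h2'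
  have e1' := (mul_eq_zero.1 e1).resolve_left hc
  have e2' := (mul_eq_zero.1 e2).resolve_left hc
  exact Prod.ext (sub_eq_zero.1 e1') (sub_eq_zero.1 e2')

section
variable {N : ℕ}

/-- basis vectors -/
def bs (i : Fin (N + 4)) (a : Bool) : YN N := Pi.single i (if a then ((0 : F), (1 : F)) else (1, 0))

def vol (a b : Bool) : F := if a then (if b then 0 else -1) else (if b then 1 else 0)

theorem co_bs (i : Fin (N + 4)) (a : Bool) (p : Idx N) :
    co (bs i a) p = if p.1 = i ∧ p.2 = a then 1 else 0 := by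
  obtain ⟨j, b⟩ := p
  unfold co bs
  by_cases h : j = i
  · subst h
    cases a <;> cases b <;> simp
  · rw [Pi.single_eq_of_ne h]
    cases a <;> cases b <;> simp [h]

theorem u0_bs (i j : Fin (N + 4)) (a b : Bool) : u0 (bs i a) (bs j b) = Mx N i j * vol a b := by
  unfold u0
  rw [Finset.sum_eq_single i, Finset.sum_eq_single j]
  · unfold bs vol
    rw [Pi.single_eq_same, Pi.single_eq_same]
    cases a <;> cases b <;> simp
  · intro k _ hk
    have : bs j b k = 0 := by unfold bs; exact Pi.single_eq_of_ne hk _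
    rw [this]; simp
  · simp
  · intro k _ hk
    have : bs i a k = 0 := by unfold bs; exact Pi.single_eq_of_ne hk _
    refine Finset.sum_eq_zero fun l _ => ?_
    rw [this]; simp
  · simp

theorem b_bs (i j : Fin (N + 4)) (a b : Bool) (h : Mx N i j ≠ 0) :
    (bN N).b (bs i a) (bs j b) = (Mx N i j * vol a b, 0) := by
  refine Prod.ext (u0_bs i j a b) ?_
  funext p q
  show (if Mx N p.1 q.1 = 0 then _ else _) = (0 : F)
  by_cases hM : Mx N p.1 q.1 = 0
  · rw [if_pos hM, co_bs, co_bs, co_bs, co_bs]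
    have h1 : ¬ (p.1 = i ∧ q.1 = j) := fun ⟨h1, h2⟩ => h (by rw [← h1, ← h2]; exact hM)
    have h2 : ¬ (p.1 = j ∧ q.1 = i) := fun ⟨h1, h2⟩ => h (by rw [← h1, ← h2, Mx_symm]; exact hM)
    by_cases e1 : p.1 = i
    · have e2 : ¬ q.1 = j := fun e => h1 ⟨e1, e⟩
      by_cases e3 : p.1 = j
      · have e4 : ¬ q.1 = i := fun e => h2 ⟨e3, e⟩
        simp [e2, e4]
      · simp [e2, e3]
    · by_cases e3 : p.1 = j
      · have e4 : ¬ q.1 = i := fun e => h2 ⟨e3, e⟩
        simp [e1, e4]
      · simp [e1, e3]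
  · rw [if_neg hM]

theorem zf_pow (f : ZN N) (k : ℕ) : zf f ^ k = zf (k • f) := by
  induction k with
  | zero => simp only [pow_zero, zero_smul]; rfl
  | succ k ih =>
    rw [pow_succ, ih]
    refine EG.ext ?_ ?_ ?_
    · simp [zf]
    · simp [zf]
    · simp [zf, Alt.zero_left, add_smul]

theorem Mx_diag (i : Fin (N + 4)) : Mx N i i = 1 := by
  unfold Mx; rw [if_pos rfl]

/-- the central element -/
theorem zc_mem : zf ((1, 0) : ZN N) ∈ NN N := by
  have h := zf_mem (bs (0 : Fin (N + 4)) false) (bs 0 true)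
  rw [b_bs _ _ _ _ (by rw [Mx_diag]; decide), Mx_diag] at h
  simpa [vol] using h

theorem zm_mem (m : F) : zf ((m, 0) : ZN N) ∈ NN N := by
  have h := (NN N).pow_mem (zc_mem (N := N)) m.val
  rw [zf_pow] at h
  have : (m.val • ((1, 0) : ZN N)) = (m, 0) := by
    refine Prod.ext ?_ ?_
    · simp
    · simp
  rwa [this] at h

theorem no_hom (ψ : NN N →* H) : ψ ⟨zf (1, 0), zc_mem⟩ = 1 := by
  by_contra hne
  -- elements of the subgroup
  let T : NN N := ⟨tau N, tau_mem⟩
  let S : YN N → NN N := fun y => ⟨sy y, sy_mem y⟩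
  let Z : YN N → YN N → NN N := fun y y' => ⟨zf ((bN N).b y y'), zf_mem y y'⟩
  have hTT : T * T = 1 := Subtype.ext tau_mul_tau
  have hSS : ∀ y y', S y * S y' = S (y + y') * Z y y' := fun y y' => Subtype.ext (sy_mul y y')
  have hSinv : ∀ y, S (-y) = (S y)⁻¹ := fun y => Subtype.ext (sy_inv y).symm
  have hTS : ∀ y, T * S y = (S y)⁻¹ * T := fun y => by
    rw [← hSinv]; exact Subtype.ext (tau_sy y)
  have hTZ : ∀ y y', T * Z y y' = Z y y' * T := fun y y' => Subtype.ext (tau_zf _)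
  have hSd : ∀ y, S (-y) * S (-y) = S y := fun y => Subtype.ext (sy_double y)
  have hSc : ∀ y, S y = S (-y) * T * (S (-y))⁻¹ * T := fun y => Subtype.ext (sy_eq_comm y)
  have hZ : ∀ y y', Z y y' = (S (y + y'))⁻¹ * (S y * S y') := fun y y' => by
    rw [hSS, inv_mul_cancel_left]
  have hZc : (⟨zf (1, 0), zc_mem⟩ : NN N) = Z (bs 0 false) (bs 0 true) := by
    apply Subtype.ext
    show zf (1, 0) = zf ((bN N).b (bs 0 false) (bs 0 true))
    rw [b_bs _ _ _ _ (by rw [Mx_diag]; decide), Mx_diag]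
    simp [vol]
  -- the image of the involution is nontrivial
  have hT1 : ψ T ≠ 1 := by
    intro h
    apply hne
    have h1 : ∀ y, ψ (S y) = 1 := by
      intro y
      rw [hSc y]
      simp [h]
    rw [hZc, hZ]
    simp [h1]
  obtain ⟨c, hc⟩ := conj_tau (ψ T) (by rw [← map_mul, hTT, map_one]) hT1
  let χ : NN N →* H := (MulAut.conj c⁻¹).toMonoidHom.comp ψ
  have hχ : ∀ x, χ x = c⁻¹ * ψ x * c := fun x => by simp [χ]
  have hχT : χ T = tauH := by rw [hχ]; exact hc
  have hχc : χ ⟨zf (1, 0), zc_mem⟩ ≠ 1 := by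
    intro h
    rw [hχ] at h
    apply hne
    have : ψ ⟨zf (1, 0), zc_mem⟩ = c * (c⁻¹ * ψ ⟨zf (1, 0), zc_mem⟩ * c) * c⁻¹ := by group
    rw [this, h]; simp
  -- components
  have hs : ∀ y, (χ (S y)).s = 1 := by
    intro y
    rw [← hSd y, map_mul]
    exact Int.units_mul_self _
  have hz : ∀ y, (χ (S y)).z = 0 := by
    intro y
    have h1 : χ T * χ (S y) = (χ (S y))⁻¹ * χ T := by rw [← map_mul, hTS, map_mul, map_inv]
    rw [hχT] at h1
    have h2 := congrArg EG.z h1
    simp only [mul_z', inv_z', tauH, Alt.zero_left, smul_zero, Alt.zero_right] at h2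
    refine F_double ?_
    simpa using h2
  have hZs : ∀ y y', (χ (Z y y')).s = 1 := by
    intro y y'
    rw [hZ, map_mul, map_inv, map_mul, mul_s', inv_s', mul_s', hs, hs, hs]
    rfl
  have hZy : ∀ y y', (χ (Z y y')).y = 0 := by
    intro y y'
    have h1 : χ T * χ (Z y y') = χ (Z y y') * χ T := by rw [← map_mul, hTZ, map_mul]
    rw [hχT] at h1
    have h2 := congrArg EG.y h1
    simp only [mul_y', tauH, smul_zero] at h2
    refine FF_double ?_
    have : -(χ (Z y y')).y = (χ (Z y y')).y := by simpa using h2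
    exact this.symm
  have hZz : ∀ y y', (χ (Z y y')).z = detB.b (χ (S y)).y (χ (S y')).y := by
    intro y y'
    have h1 : χ (S y) * χ (S y') = χ (S (y + y')) * χ (Z y y') := by rw [← map_mul, hSS, map_mul]
    have h2 := congrArg EG.z h1
    simp only [mul_z', hs, hz, hZy, one_smul, Alt.zero_right, zero_add, add_zero] at h2
    exact h2.symm
  set c0 : F := (χ ⟨zf (1, 0), zc_mem⟩).z with hc0
  have hc0' : c0 ≠ 0 := by
    intro h
    apply hχc
    have e1 : (χ ⟨zf (1, 0), zc_mem⟩).s = 1 := by rw [hZc]; exact hZs _ _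
    have e2 : (χ ⟨zf (1, 0), zc_mem⟩).y = 0 := by rw [hZc]; exact hZy _ _
    exact EG.ext e1 e2 h
  have hpow : ∀ k : ℕ, (χ ⟨zf (1, 0), zc_mem⟩ ^ k).s = 1 ∧ (χ ⟨zf (1, 0), zc_mem⟩ ^ k).y = 0 ∧
      (χ ⟨zf (1, 0), zc_mem⟩ ^ k).z = k * c0 := by
    have e1 : (χ ⟨zf (1, 0), zc_mem⟩).s = 1 := by rw [hZc]; exact hZs _ _
    have e2 : (χ ⟨zf (1, 0), zc_mem⟩).y = 0 := by rw [hZc]; exact hZy _ _
    intro k
    induction k with
    | zero => refine ⟨rfl, rfl, ?_⟩; simp
    | succ k ih =>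
      rw [pow_succ]
      refine ⟨?_, ?_, ?_⟩
      · rw [mul_s', ih.1, e1]; rfl
      · rw [mul_y', ih.2.1, e2]; simp
      · rw [mul_z', ih.2.2, ih.2.1, Alt.zero_left, ← hc0]
        push_cast; ring
  have hm : ∀ (i j : Fin (N + 4)) (a b : Bool), Mx N i j ≠ 0 →
      detB.b (χ (S (bs i a))).y (χ (S (bs j b))).y = Mx N i j * vol a b * c0 := by
    intro i j a b h
    rw [← hZz]
    have e : Z (bs i a) (bs j b) = (⟨zf (1, 0), zc_mem⟩ : NN N) ^ (Mx N i j * vol a b).val := by
      apply Subtype.ext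
      show zf ((bN N).b (bs i a) (bs j b)) = ((⟨zf (1, 0), zc_mem⟩ : NN N) ^ _ : NN N).1
      rw [Subgroup.coe_pow, zf_pow, b_bs i j a b h]
      congr 1
      refine Prod.ext ?_ ?_
      · simp
      · simp
    rw [e, map_pow, (hpow _).2.2, ZMod.natCast_zmod_val]
  -- transport along the cycle
  have hone : (1 : F) ≠ 0 := by decide
  have hstep : ∀ i : ℕ, (hi : i < N + 4) →
      (χ (S (bs ⟨i, hi⟩ false))).y = (χ (S (bs 0 false))).y ∧
      (χ (S (bs ⟨i, hi⟩ true))).y = (χ (S (bs 0 true))).y := by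
    intro i
    induction i with
    | zero => intro hi; exact ⟨rfl, rfl⟩
    | succ i ih =>
      intro hi
      obtain ⟨h1, h2⟩ := ih (by omega)
      have hM : Mx N ⟨i, by omega⟩ ⟨i + 1, hi⟩ = 1 := by
        unfold Mx
        rw [if_neg (by intro e; simp [Fin.ext_iff] at e), if_pos (Or.inl rfl)]
      have hM' : Mx N ⟨i, by omega⟩ ⟨i + 1, hi⟩ ≠ 0 := by rw [hM]; exact hone
      have hD' : Mx N ⟨i, by omega⟩ ⟨i, by omega⟩ ≠ 0 := by rw [Mx_diag]; exact hone
      have key : ∀ b, (χ (S (bs ⟨i + 1, hi⟩ b))).y = (χ (S (bs ⟨i, by omega⟩ b))).y := by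
        intro b
        refine det_cancel (p := (χ (S (bs ⟨i, by omega⟩ false))).y)
          (q := (χ (S (bs ⟨i, by omega⟩ true))).y) (c := c0) hc0' ?_ ?_ ?_
        · rw [hm _ _ _ _ hD', Mx_diag]; simp [vol]
        · rw [hm _ _ _ _ hD', hm _ _ _ _ hM', Mx_diag, hM]
        · rw [hm _ _ _ _ hD', hm _ _ _ _ hM', Mx_diag, hM]
      exact ⟨(key false).trans h1, (key true).trans h2⟩
  have hlast := hstep (N + 3) (by omega)
  have hMl : Mx N ⟨N + 3, by omega⟩ 0 = -1 := by
    unfold Mx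
    rw [if_neg (by intro e; simp [Fin.ext_iff] at e), if_neg (by simp), if_pos (by right; simp)]
  have hMl' : Mx N ⟨N + 3, by omega⟩ 0 ≠ 0 := by rw [hMl]; decide
  have e1 := hm ⟨N + 3, by omega⟩ 0 false true hMl'
  rw [hlast.1, hMl] at e1
  have e2 := hm 0 0 false true (by rw [Mx_diag]; exact hone)
  rw [Mx_diag] at e2
  rw [e1] at e2
  apply hc0'
  apply F_double
  have : -1 * vol false true * c0 = 1 * vol false true * c0 := e2
  simp only [vol] at this
  have h5 : -c0 = c0 := by simpa using this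
  exact h5.symm

/-- The normal closure of the involution is not in the quasivariety generated by `H`. -/
theorem not_inQ : ¬ InQ H (NN N) := by
  intro h
  have hz : (⟨zf (1, 0), zc_mem⟩ : NN N) ≠ 1 := by
    intro e
    have e1 : zf ((1, 0) : ZN N) = 1 := congrArg Subtype.val e
    have e2 : ((1, 0) : ZN N) = 0 := congrArg EG.z e1
    have e3 : (1 : F) = 0 := congrArg Prod.fst e2
    exact absurd e3 (by decide)
  obtain ⟨ψ, hψ⟩ := exists_hom h _ hz
  exact hψ (no_hom ψ)

end

end Pool.Agent.Y614.Levi
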