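import Mathlib
import Pool.Agent.Y614.LeviE

/-!
# First-order sentences of the language of groups and ultraproducts (for MP_eace53_al)
-/

set_option autoImplicit false

namespace Pool.Agent.Y614.Levi

open FirstOrder Filter

/-- the function symbols of the language of groups -/
inductive GFunc : ℕ → Type
  | one : GFunc 0
  | inv : GFunc 1
  | mul : GFunc 2

/-- the language of groups: `1`, `⁻¹`, `*` -/
def LG : Language := ⟨GFunc, fun _ => Empty⟩

/-- the interpretation of the function symbols in a group -/
def gfun (G : Type) [Group G] : ∀ n : ℕ, GFunc n → (Fin n → G) → G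
  | _, .one, _ => 1
  | _, .inv, x => (x 0)⁻¹
  | _, .mul, x => x 0 * x 1

/-- a group as a structure -/
def gstr (G : Type) [Group G] : LG.Structure G where
  funMap {n} f x := gfun G n f x
  RelMap {_} r _ := r.elim

/-- the sentence `φ` is true in the group `G` -/
def TrueIn (G : Type) [Group G] (φ : LG.Sentence) : Prop :=
  @Language.Sentence.Realize LG G (gstr G) φ

section
variable (M : ℕ → Type) [∀ a, Group (M a)] (u : Ultrafilter ℕ)

abbrev UP : Type := (u : Filter ℕ).Product M

/-- the quotient map -/
def mkU (f : ∀ a, M a) : UP M u := Quotient.mk _ f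

theorem mkU_eq (f g : ∀ a, M a) : mkU M u f = mkU M u g ↔ ∀ᶠ a in (u : Filter ℕ), f a = g a :=
  Quotient.eq''

theorem mkU_surj (x : UP M u) : ∃ f, mkU M u f = x := Quotient.exists_rep x

instance instMulUP : Mul (UP M u) := ⟨Quotient.map₂ (fun f g a => f a * g a) (by
  intro f f' h g g' h'
  filter_upwards [h, h'] with a ha ha'
  rw [ha, ha'])⟩

instance instOneUP : One (UP M u) := ⟨mkU M u fun _ => 1⟩

instance instInvUP : Inv (UP M u) := ⟨Quotient.map (fun f a => (f a)⁻¹) (by
  intro f f' h
  filter_upwards [h] with a ha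
  rw [ha])⟩

theorem mkU_mul (f g : ∀ a, M a) : mkU M u f * mkU M u g = mkU M u (fun a => f a * g a) := rfl
theorem mkU_inv (f : ∀ a, M a) : (mkU M u f)⁻¹ = mkU M u (fun a => (f a)⁻¹) := rfl
theorem mkU_one : (1 : UP M u) = mkU M u (fun _ => 1) := rfl

instance instGroupUP : Group (UP M u) := Group.ofLeftAxioms
  (by
    intro x y z
    obtain ⟨f, rfl⟩ := mkU_surj M u x
    obtain ⟨g, rfl⟩ := mkU_surj M u y
    obtain ⟨h, rfl⟩ := mkU_surj M u z
    simp only [mkU_mul, mul_assoc])
  (by
    intro x
    obtain ⟨f, rfl⟩ := mkU_surj M u x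
    simp only [mkU_one, mkU_mul, one_mul])
  (by
    intro x
    obtain ⟨f, rfl⟩ := mkU_surj M u x
    simp only [mkU_inv, mkU_one, mkU_mul, inv_mul_cancel])

/-- the quotient homomorphism -/
def qU : (∀ a, M a) →* UP M u where
  toFun := mkU M u
  map_one' := rfl
  map_mul' _ _ := rfl

theorem qU_eq_one (f : ∀ a, M a) : qU M u f = 1 ↔ ∀ᶠ a in (u : Filter ℕ), f a = 1 :=
  mkU_eq M u f _

/-- Łoś' theorem for groups. -/
theorem los (φ : LG.Sentence) : TrueIn (UP M u) φ ↔ ∀ᶠ a in (u : Filter ℕ), TrueIn (M a) φ := by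
  letI : ∀ a, LG.Structure (M a) := fun a => gstr (M a)
  have hstr : gstr (UP M u) = Language.Ultraproduct.structure (L := LG) (M := M) (u := u) := by
    refine Language.Structure.ext ?_ ?_
    · funext n f x
      choose y hy using fun i => mkU_surj M u (x i)
      have hx : x = fun i => mkU M u (y i) := funext fun i => (hy i).symm
      subst hx
      have h1 := Language.Ultraproduct.funMap_cast (L := LG) (M := M) (u := u) f y
      refine Eq.trans ?_ h1.symm
      cases f with
      | one => rfl
      | inv => rfl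
      | mul => rfl
    · funext n r
      exact r.elim
  have h := Language.Ultraproduct.sentence_realize (L := LG) (M := M) (u := u) φ
  unfold TrueIn
  rw [hstr]
  exact h

end

/-- The ultraproduct of the groups `K a` is in the quasivariety of `H`. -/
theorem inQ_UP (u : Ultrafilter ℕ) (hu : ∀ n : ℕ, ∀ᶠ a in (u : Filter ℕ), n ≤ a) :
    InQ H (UP K u) := by
  intro n prem concl hH f hf
  choose y hy using fun i => mkU_surj K u (f i)
  have hfy : f = fun i => qU K u (y i) := funext fun i => (hy i).symm
  subst hfy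
  have hl : ∀ (w : FreeGroup (Fin n)) (a : ℕ),
      (FreeGroup.lift y w) a = FreeGroup.lift (fun i => y i a) w := by
    intro w a
    exact (lift_hom (Pi.evalMonoidHom K a) y w).symm
  rw [lift_hom, qU_eq_one]
  have h1 : ∀ p ∈ prem, ∀ᶠ a in (u : Filter ℕ), FreeGroup.lift (fun i => y i a) p = 1 := by
    intro p hp
    have := hf p hp
    rw [lift_hom, qU_eq_one] at this
    filter_upwards [this] with a ha
    rw [← hl]; exact ha
  have h2 : ∀ᶠ a in (u : Filter ℕ), ∀ p ∈ prem, FreeGroup.lift (fun i => y i a) p = 1 := by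
    have h3 : ∀ᶠ a in (u : Filter ℕ), ∀ p ∈ {p | p ∈ prem}, FreeGroup.lift (fun i => y i a) p = 1 :=
      (Filter.eventually_all_finite (List.finite_toSet prem)).2 h1
    exact h3
  filter_upwards [h2, hu n] with a ha hna
  rw [hl]
  exact local_Q hna prem concl hH _ ha

end Pool.Agent.Y614.Levi
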